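import Pool.Agent.W662.SK.Basic
import Pool.Agent.W662.SK.StmtsA

/-! Project SK (helper662), part A1: the rotation is a unitary. -/

set_option autoImplicit false

open scoped InnerProductSpace ENNReal

namespace Pool.Agent.W557.SK

open Pool.Agent.W662.SK

noncomputable section

/-- the rotation as a linear map -/
def rl (c t : ℝ) (s : G3) : K0 →ₗ[ℂ] K0 where
  toFun f := f + ((((c : ℂ) - 1) * f 1 + (t : ℂ) * f s) • dl 1) +
    ((((c : ℂ) - 1) * f s - (t : ℂ) * f 1) • dl s)
  map_add' f g := by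
    refine l2_ext fun i => ?_
    simp only [l2_add_apply, l2_smul_apply, smul_eq_mul]
    ring
  map_smul' a f := by
    refine l2_ext fun i => ?_
    simp only [l2_add_apply, l2_smul_apply, smul_eq_mul, RingHom.id_apply]
    ring

theorem rl_apply (c t : ℝ) (s : G3) (hs : s ≠ 1) (f : K0) (x : G3) :
    rl c t s f x = rotFun c t s (fun y => f y) x := by
  have e : rl c t s f x = f x + (((c : ℂ) - 1) * f 1 + (t : ℂ) * f s) * dl 1 x +
    (((c : ℂ) - 1) * f s - (t : ℂ) * f 1) * dl s x := rfl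
  rw [e]
  unfold rotFun
  by_cases h1 : x = 1
  · subst h1
    rw [if_pos rfl, dl_apply_self, dl_apply_ne (Ne.symm hs)]
    ring
  · rw [if_neg h1, dl_apply_ne h1]
    by_cases h2 : x = s
    · subst h2
      rw [if_pos rfl, dl_apply_self]
      ring
    · rw [if_neg h2, dl_apply_ne h2]
      ring

theorem rl_inv (c t : ℝ) (s : G3) (hs : s ≠ 1) (hct : c ^ 2 + t ^ 2 = 1) (f : K0) :
    rl c (-t) s (rl c t s f) = f := by
  have hct' : (c : ℂ) ^ 2 + (t : ℂ) ^ 2 = 1 := by exact_mod_cast hct
  refine l2_ext fun x => ?_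
  rw [rl_apply c (-t) s hs]
  unfold rotFun
  dsimp only
  have r1 : rl c t s f 1 = (c : ℂ) * f 1 + (t : ℂ) * f s := by
    rw [rl_apply c t s hs]
    unfold rotFun
    rw [if_pos rfl]
  have rs : rl c t s f s = (c : ℂ) * f s - (t : ℂ) * f 1 := by
    rw [rl_apply c t s hs]
    unfold rotFun
    rw [if_neg hs, if_pos rfl]
  by_cases h1 : x = 1
  · subst h1
    rw [if_pos rfl, r1, rs]
    push_cast
    linear_combination f 1 * hct'
  · rw [if_neg h1]
    by_cases h2 : x = s
    · subst h2
      rw [if_pos rfl, r1, rs]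
      push_cast
      linear_combination f x * hct'
    · rw [if_neg h2, rl_apply c t s hs]
      unfold rotFun
      rw [if_neg h1, if_neg h2]

theorem sq_id (c t : ℝ) (a b : ℂ) : ‖(c : ℂ) * a + (t : ℂ) * b‖ ^ 2 + ‖(c : ℂ) * b - (t : ℂ) * a‖ ^ 2 =
    (c ^ 2 + t ^ 2) * (‖a‖ ^ 2 + ‖b‖ ^ 2) := by
  rw [Complex.sq_norm, Complex.sq_norm, Complex.sq_norm, Complex.sq_norm, Complex.normSq_apply,
    Complex.normSq_apply, Complex.normSq_apply, Complex.normSq_apply]
  simp only [Complex.add_re, Complex.mul_re, Complex.ofReal_re, Complex.ofReal_im, Complex.add_im,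
    Complex.mul_im, Complex.sub_re, Complex.sub_im]
  ring

theorem rl_norm (c t : ℝ) (s : G3) (hs : s ≠ 1) (hct : c ^ 2 + t ^ 2 = 1) (f : K0) :
    ‖rl c t s f‖ = ‖f‖ := by
  classical
  have h1 := norm_sq_hasSum (rl c t s f)
  have h2 := norm_sq_hasSum f
  have h3 := h1.sub h2
  have h4 : HasSum (fun i => ‖rl c t s f i‖ ^ 2 - ‖f i‖ ^ 2)
      (∑ i ∈ ({1, s} : Finset G3), (‖rl c t s f i‖ ^ 2 - ‖f i‖ ^ 2)) := by
    apply hasSum_sum_of_ne_finset_zero
    intro x hx
    rw [Finset.mem_insert, Finset.mem_singleton, not_or] at hx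
    rw [rl_apply c t s hs]
    unfold rotFun
    rw [if_neg hx.1, if_neg hx.2]
    ring
  have h5 := h3.unique h4
  rw [Finset.sum_pair (Ne.symm hs), rl_apply c t s hs, rl_apply c t s hs] at h5
  unfold rotFun at h5
  rw [if_pos rfl, if_neg hs, if_pos rfl] at h5
  have h6 := sq_id c t (f 1) (f s)
  rw [hct] at h6
  have h7 : ‖rl c t s f‖ ^ 2 = ‖f‖ ^ 2 := by linarith
  exact (sq_eq_sq₀ (norm_nonneg _) (norm_nonneg _)).1 h7

theorem a1 : S_A1 := by
  intro t s ht0 ht1 hs
  have hct : cs t ^ 2 + t ^ 2 = 1 := by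
    unfold cs
    rw [Real.sq_sqrt (by nlinarith)]
    ring
  have hct' : cs t ^ 2 + (-t) ^ 2 = 1 := by rw [neg_sq]; exact hct
  refine ⟨{ toFun := rl (cs t) t s
            map_add' := (rl (cs t) t s).map_add
            map_smul' := (rl (cs t) t s).map_smul
            invFun := rl (cs t) (-t) s
            left_inv := fun f => rl_inv (cs t) t s hs hct f
            right_inv := fun f => by
              have h := rl_inv (cs t) (-t) s hs hct' f
              rw [neg_neg] at h
              exact h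
            norm_map' := fun f => rl_norm (cs t) t s hs hct f }, fun f x => ?_⟩
  exact rl_apply (cs t) t s hs f x

end

end Pool.Agent.W557.SK
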